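import Mathlib

set_option autoImplicit false

open Filter Topology Set

namespace Pool.Agent.Results.MP_0aa9c3_an.IterateDifferences

/-- `T : ℝ → ℝ` is nonexpansive. -/
def Nonexpansive (T : ℝ → ℝ) : Prop := ∀ x y : ℝ, |T x - T y| ≤ |x - y|

/-- `v` is the metric projection of `0` onto the closure of the range of `Id - T`: it belongs to
this closure and has the smallest absolute value there. -/
def IsMinimalDisplacement (T : ℝ → ℝ) (v : ℝ) : Prop :=
  v ∈ closure (range fun x => x - T x) ∧
    ∀ w ∈ closure (range fun x => x - T x), |v| ≤ |w|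

lemma disp_mono {T : ℝ → ℝ} (hT : Nonexpansive T) : Monotone fun x => x - T x := by
  intro x y hxy
  have h := hT y x
  have h1 := le_abs_self (T y - T x)
  rw [abs_of_nonneg (sub_nonneg.mpr hxy)] at h
  simp only
  linarith

lemma cont {T : ℝ → ℝ} (hT : Nonexpansive T) : Continuous T := by
  have : LipschitzWith 1 T := by
    apply LipschitzWith.of_dist_le_mul
    intro x y
    simpa [Real.dist_eq] using hT x y
  exact this.continuous

/-- The main step: if all displacements `x - T x` are at least `v > 0`, then the differences of the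
iterates converge. -/
lemma key {T : ℝ → ℝ} (hT : Nonexpansive T) {v : ℝ} (hv : 0 < v) (hd : ∀ x, v ≤ x - T x)
    (x y : ℝ) : ∃ l : ℝ, Tendsto (fun n : ℕ => T^[n] x - T^[n] y) atTop (𝓝 l) := by
  have hg := disp_mono hT
  set g : ℝ → ℝ := fun x => x - T x with hgdef
  have hstep : ∀ (z : ℝ) (n : ℕ), T^[n + 1] z = T^[n] z - g (T^[n] z) := by
    intro z n
    rw [Function.iterate_succ_apply']
    simp only [hgdef]; ring
  have hdec : ∀ z : ℝ, Antitone fun n : ℕ => T^[n] z := by
    intro z
    apply antitone_nat_of_succ_le
    intro n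
    rw [hstep]
    have := hd (T^[n] z)
    simp only [hgdef]
    linarith
  have hbot : ∀ z : ℝ, ∀ n : ℕ, T^[n] z ≤ z - n * v := by
    intro z n
    induction n with
    | zero => simp
    | succ n ih =>
      rw [hstep]
      have := hd (T^[n] z)
      simp only [hgdef]
      push_cast
      linarith
  have hlim : ∀ z : ℝ, Tendsto (fun n : ℕ => T^[n] z) atTop atBot := by
    intro z
    refine tendsto_atBot_mono (hbot z) ?_
    have h1 : Tendsto (fun n : ℕ => (n : ℝ) * v) atTop atTop :=
      tendsto_natCast_atTop_atTop.atTop_mul_const hv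
    have h2 : Tendsto (fun n : ℕ => z + -((n : ℝ) * v)) atTop atBot :=
      tendsto_atBot_add_const_left _ _ (tendsto_neg_atTop_atBot.comp h1)
    exact h2.congr fun n => by ring
  -- `g` has the limit `a` at `-∞`
  have hbdd : BddBelow (range g) := ⟨v, by rintro _ ⟨z, rfl⟩; exact hd z⟩
  have hga : Tendsto g atBot (𝓝 (⨅ z, g z)) := tendsto_atBot_ciInf hg hbdd
  have h0 : Tendsto (fun n : ℕ => g (T^[n] x) - g (T^[n] y)) atTop (𝓝 0) := by
    have := (hga.comp (hlim x)).sub (hga.comp (hlim y))
    simpa using this
  set d : ℕ → ℝ := fun n => T^[n] x - T^[n] y with hddef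
  have hdstep : ∀ n, d (n + 1) = d n - (g (T^[n] x) - g (T^[n] y)) := by
    intro n
    simp only [hddef]
    rw [hstep, hstep]; ring
  have habs : Antitone fun n => |d n| := by
    apply antitone_nat_of_succ_le
    intro n
    simp only [hddef]
    rw [Function.iterate_succ_apply', Function.iterate_succ_apply']
    exact hT _ _
  have hbd : BddBelow (range fun n => |d n|) := ⟨0, by rintro _ ⟨n, rfl⟩; exact abs_nonneg _⟩
  have hc := tendsto_atTop_ciInf habs hbd
  set c : ℝ := ⨅ n, |d n| with hcdef
  have hc0 : 0 ≤ c := le_ciInf fun n => abs_nonneg _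
  have hcle : ∀ n, c ≤ |d n| := fun n => ciInf_le hbd n
  rcases eq_or_lt_of_le hc0 with h | h
  · refine ⟨0, ?_⟩
    rw [← h] at hc
    exact (tendsto_zero_iff_abs_tendsto_zero _).mpr hc
  · -- eventually the increments are smaller than `c`
    have hev : ∀ᶠ n in atTop, |g (T^[n] x) - g (T^[n] y)| < c := by
      have := h0.abs
      simp only [abs_zero] at this
      exact this.eventually_lt_const h
    obtain ⟨N, hN⟩ := eventually_atTop.mp hev
    have hsame : ∀ n, N ≤ n → (0 < d n ↔ 0 < d (n + 1)) := by
      intro n hn
      have h1 := abs_lt.mp (hN n hn)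
      have h2 := hcle n
      have h3 := hcle (n + 1)
      have h4 := hdstep n
      constructor
      · intro hp
        by_contra hq
        push Not at hq
        rw [abs_of_nonpos hq] at h3
        rw [abs_of_pos hp] at h2
        linarith
      · intro hp
        by_contra hq
        push Not at hq
        rw [abs_of_pos hp] at h3
        rw [abs_of_nonpos hq] at h2
        linarith
    have hall : ∀ n, N ≤ n → (0 < d N ↔ 0 < d n) := by
      intro n hn
      induction n, hn using Nat.le_induction with
      | base => exact Iff.rfl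
      | succ n hn ih => exact ih.trans (hsame n hn)
    by_cases hs : 0 < d N
    · refine ⟨c, hc.congr' ?_⟩
      filter_upwards [eventually_ge_atTop N] with n hn
      exact abs_of_pos ((hall n hn).mp hs)
    · refine ⟨-c, ?_⟩
      refine hc.neg.congr' ?_
      filter_upwards [eventually_ge_atTop N] with n hn
      have : ¬ 0 < d n := fun h => hs ((hall n hn).mpr h)
      rw [abs_of_nonpos (not_lt.mp this), neg_neg]

lemma disp_ge {T : ℝ → ℝ} (hT : Nonexpansive T) {v : ℝ} (hmin : IsMinimalDisplacement T v)
    (hv : 0 < v) (x : ℝ) : v ≤ x - T x := by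
  obtain ⟨hcl, hle⟩ := hmin
  have habs : ∀ z, v ≤ |z - T z| := by
    intro z
    have := hle (z - T z) (subset_closure ⟨z, rfl⟩)
    rwa [abs_of_pos hv] at this
  by_contra hcon
  push Not at hcon
  have hneg : x - T x < 0 := by
    by_contra h
    push Not at h
    have := habs x
    rw [abs_of_nonneg h] at this
    linarith
  obtain ⟨w, ⟨z, hz⟩, hw⟩ := Metric.mem_closure_iff.mp hcl v hv
  simp only at hz
  have hwpos : 0 < z - T z := by
    rw [hz]
    rw [Real.dist_eq] at hw
    have := abs_lt.mp hw
    linarith
  have hcont : Continuous fun z => z - T z := continuous_id.sub (cont hT)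
  obtain ⟨u, hu⟩ := mem_range_of_exists_le_of_exists_ge hcont ⟨x, hneg.le⟩ ⟨z, hwpos.le⟩
  simp only at hu
  have := habs u
  rw [hu, abs_zero] at this
  linarith

/-- **Answer to Q1 (positive).** If `T` is nonexpansive and its minimal displacement `v` is not
zero, then `T^n x - T^n y` converges for all `x, y`, whether or not `Fix (v + T)` is empty. -/
theorem result : ∀ T : ℝ → ℝ, Nonexpansive T → ∀ v : ℝ, IsMinimalDisplacement T v → v ≠ 0 →
    ∀ x y : ℝ, ∃ l : ℝ, Tendsto (fun n : ℕ => T^[n] x - T^[n] y) atTop (𝓝 l) := by
    intro T hT v hmin hv x y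
    rcases lt_or_gt_of_ne hv with h | h
    · -- reflect
      set S : ℝ → ℝ := fun z => -T (-z) with hS
      have hSn : Nonexpansive S := by
        intro a b
        have := hT (-a) (-b)
        simp only [hS]
        rw [show -T (-a) - -T (-b) = -(T (-a) - T (-b)) by ring, abs_neg]
        rwa [show -a - -b = -(a - b) by ring, abs_neg] at this
      have hrange : (range fun z => z - S z) = Neg.neg '' (range fun z => z - T z) := by
        ext w
        constructor
        · rintro ⟨z, rfl⟩
          exact ⟨-z - T (-z), ⟨-z, rfl⟩, by simp only [hS]; ring⟩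
        · rintro ⟨_, ⟨z, rfl⟩, rfl⟩
          exact ⟨-z, by simp only [hS, neg_neg]; ring⟩
      have hcl : closure (range fun z => z - S z) = Neg.neg '' closure (range fun z => z - T z) := by
        rw [hrange]
        exact ((Homeomorph.neg ℝ).image_closure _).symm
      have hminS : IsMinimalDisplacement S (-v) := by
        refine ⟨?_, ?_⟩
        · rw [hcl]; exact ⟨v, hmin.1, rfl⟩
        · intro w hw
          rw [hcl] at hw
          obtain ⟨u, hu, rfl⟩ := hw
          rw [abs_neg, abs_neg]
          exact hmin.2 u hu
      have hiter : ∀ (n : ℕ) (z : ℝ), S^[n] (-z) = -T^[n] z := by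
        intro n z
        induction n with
        | zero => simp
        | succ n ih =>
          rw [Function.iterate_succ_apply', Function.iterate_succ_apply', ih]
          simp only [hS, neg_neg]
      obtain ⟨l, hl⟩ := key hSn (neg_pos.mpr h) (disp_ge hSn hminS (neg_pos.mpr h)) (-x) (-y)
      refine ⟨-l, ?_⟩
      refine hl.neg.congr fun n => ?_
      rw [hiter, hiter]; ring
    · exact key hT h (disp_ge hT hmin h) x y

end Pool.Agent.Results.MP_0aa9c3_an.IterateDifferences
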